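import Pool.Agent.Helper19_PAR.Core

set_option autoImplicit false

/-!
# Bridges between the zones for large `N`
-/

namespace Pool.Agent.PAR

variable {N : ℤ} {g : ℤ → ℤ}

/-- `s` is the integer part of the square root of `N`, at least `2449` -/
structure Big (N s : ℤ) : Prop where
  lo : s ^ 2 ≤ N
  hi : N < (s + 1) ^ 2
  big : 2449 ≤ s

theorem sqm {x y : ℤ} (hx : 0 ≤ x) (h : x ≤ y) : x ^ 2 ≤ y ^ 2 := pow_le_pow_left₀ hx h 2

theorem inA0 {s b : ℤ} (S : Big N s) (h0 : 0 < b) (h : 1000 * b ≤ 1414 * s + 2000) :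
    InA N 0 b := by
  obtain ⟨h1, h2, h3⟩ := S
  refine ⟨h0, by omega, by nlinarith [sq_nonneg (b - 1)], ?_⟩
  rcases le_or_gt b 2 with hb | hb
  · have : (b - 2) * (b - 2 * 0 - 2) ≤ 1 := by
      have hb1 : 1 ≤ b := h0
      nlinarith
    nlinarith
  · have := sqm (x := 1000 * (b - 2)) (y := 1414 * s) (by omega) (by omega)
    nlinarith

theorem inA1 {s b : ℤ} (S : Big N s) (h : 14143 * (s + 1) ≤ 10000 * (b - 2))
    (h' : b ≤ 2 * s + 2) : InA N 1 b := by
  obtain ⟨h1, h2, h3⟩ := S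
  refine ⟨by omega, by omega, ?_, ?_⟩
  · have := sqm (x := 14143 * (s + 1)) (y := 10000 * (b - 2)) (by omega) (by omega)
    nlinarith
  · have := sqm (x := b - 3) (y := 2 * s - 1) (by omega) (by omega)
    nlinarith

theorem inA2 {s b : ℤ} (S : Big N s) (h : 2 * s + 5 ≤ b)
    (h' : 1000 * (b - 4) ≤ 2449 * s) : InA N 2 b := by
  obtain ⟨h1, h2, h3⟩ := S
  refine ⟨by omega, by omega, ?_, ?_⟩
  · have := sqm (x := 2 * s + 2) (y := b - 3) (by omega) (by omega)
    nlinarith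
  · have := sqm (x := 1000 * (b - 4)) (y := 2449 * s) (by omega) (by omega)
    nlinarith

theorem inA3 {s b : ℤ} (S : Big N s) (h : 24495 * (s + 1) ≤ 10000 * (b - 4))
    (h' : 1000 * (b - 5) ≤ 2828 * s) : InA N 3 b := by
  obtain ⟨h1, h2, h3⟩ := S
  refine ⟨by omega, by omega, ?_, ?_⟩
  · have := sqm (x := 24495 * (s + 1)) (y := 10000 * (b - 4)) (by omega) (by omega)
    nlinarith
  · have := sqm (x := 1000 * (b - 5)) (y := 2828 * s) (by omega) (by omega)
    nlinarith

theorem inB0 {s b : ℤ} (S : Big N s) (h0 : 0 < b) (h : 1000 * b ≤ 1414 * s) :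
    InB N 0 b := by
  obtain ⟨h1, h2, h3⟩ := S
  refine ⟨h0, by nlinarith [sq_nonneg (b - 1)], ?_⟩
  have := sqm (x := 1000 * b) (y := 1414 * s) (by omega) (by omega)
  nlinarith

theorem inB1 {s b : ℤ} (S : Big N s) (h : 14143 * (s + 1) ≤ 10000 * b)
    (h' : b ≤ 2 * s - 2) : InB N 1 b := by
  obtain ⟨h1, h2, h3⟩ := S
  refine ⟨by omega, ?_, ?_⟩
  · have := sqm (x := 14143 * (s + 1)) (y := 10000 * b) (by omega) (by omega)
    nlinarith
  · have := sqm (x := b + 1) (y := 2 * s - 1) (by omega) (by omega)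
    nlinarith

theorem inB2 {s b : ℤ} (S : Big N s) (h : 2 * s + 1 ≤ b)
    (h' : 1000 * (b + 2) ≤ 2449 * s) : InB N 2 b := by
  obtain ⟨h1, h2, h3⟩ := S
  refine ⟨by omega, ?_, ?_⟩
  · have := sqm (x := 2 * s + 2) (y := b + 1) (by omega) (by omega)
    nlinarith
  · have := sqm (x := 1000 * (b + 2)) (y := 2449 * s) (by omega) (by omega)
    nlinarith

theorem inB3 {s b : ℤ} (S : Big N s) (h : 24495 * (s + 1) ≤ 10000 * (b + 2))
    (h' : 1000 * (b + 3) ≤ 2828 * s) : InB N 3 b := by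
  obtain ⟨h1, h2, h3⟩ := S
  refine ⟨by omega, ?_, ?_⟩
  · have := sqm (x := 24495 * (s + 1)) (y := 10000 * (b + 2)) (by omega) (by omega)
    nlinarith
  · have := sqm (x := 1000 * (b + 3)) (y := 2828 * s) (by omega) (by omega)
    nlinarith

theorem Big.n16 {s : ℤ} (S : Big N s) : 16 ≤ N := by
  obtain ⟨h1, h2, h3⟩ := S
  nlinarith

/-- the central zone -/
theorem Hyp.zone0 (H : Hyp N g) {s e : ℤ} (S : Big N s) (he : Odd e)
    (h1 : 1000 * e ≤ 1414 * s) (h2 : -(1414 * s) ≤ 1000 * e) : g (N + e) = g (N + 1) := by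
  have hN := S.n16
  have hs := S.big
  rcases lt_trichotomy e 0 with h | h | h
  · have h3 := H.zoneB (i := 0) (b := -e) (b' := 1) le_rfl he.neg odd_one (by omega)
      (inB0 S (by omega) (by omega)) (inB0 S (by omega) (by omega))
    rw [sub_neg_eq_add] at h3
    rw [h3]
    exact H.centre (by omega)
  · subst h
    exact absurd he (by decide)
  · exact H.zoneA (i := 0) le_rfl he odd_one (by omega)
      (inA0 S h (by omega)) (inA0 S (by omega) (by omega))

theorem odd_sub_even {a b : ℤ} (ha : Odd a) (hb : Even b) : Odd (a - b) := ha.sub_even hb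

/-- bridges from the left of the centre, distance `1.1 s` to `1.6 s` -/
theorem Hyp.stepR (H : Hyp N g) {s lo : ℤ} (S : Big N s) (h1 : 1100 * s ≤ 1000 * lo)
    (h2 : 1000 * lo ≤ 1600 * s) :
    ∃ b₁ b₂ : ℤ, Odd b₁ ∧ Odd b₂ ∧ lo ≤ b₁ ∧ 1000 * b₁ ≤ 1000 * lo + 120 * s - 3000 ∧
      4 * s + 4 ≤ b₁ + b₂ ∧ b₁ + b₂ ≤ 4 * s + 8 ∧ g (N - b₁) = g (N + b₂) := by
  obtain ⟨S1, S2, S3⟩ := S
  have S : Big N s := ⟨S1, S2, S3⟩
  have hY : 0 < N - lo := by nlinarith
  obtain ⟨c, h, hc0, hh0, hodd, c1, c2, n1, n2, hq⟩ := exH (N - lo) hY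
  -- bounds for c
  have cs1 : s ≤ c := by
    by_contra hcon
    have : c ≤ s - 1 := by omega
    have := sqm hc0.le this
    nlinarith
  have cs2 : c ≤ s + 1 := by
    by_contra hcon
    have : s + 1 ≤ c - 1 := by omega
    have := sqm (by omega) this
    nlinarith
  have hhs : 100 * h ≤ 3 * s := by
    by_contra hcon
    have : 3 * s - 200 ≤ 100 * (h - 2) := by omega
    have := sqm (by omega) this
    nlinarith
  have hO1 : Odd (c + h) := by
    have : c + h = (c - h) + 2 * h := by ring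
    rw [this]
    exact hodd.add_even (even_two_mul h)
  have hO3 : Odd (c - h + 2) := hodd.add_even even_two
  have hO4 : Odd (c + h + 2) := hO1.add_even even_two
  have hn : Odd (c ^ 2 - h ^ 2) := by
    have : c ^ 2 - h ^ 2 = (c - h) * (c + h) := by ring
    rw [this]; exact hodd.mul hO1
  have hn' : Odd ((c + 2) ^ 2 - h ^ 2) := by
    have : (c + 2) ^ 2 - h ^ 2 = (c - h + 2) * (c + h + 2) := by ring
    rw [this]; exact hO3.mul hO4
  have hm1 : g ((c - h + 2) * (c + h)) = g (N + 1) := by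
    have e : (c - h + 2) * (c + h) = N + ((c ^ 2 - h ^ 2) + 2 * c + 2 * h - N) := by ring
    have ho : Odd ((c ^ 2 - h ^ 2) + 2 * c + 2 * h - N) := by
      have : (c ^ 2 - h ^ 2) + 2 * c + 2 * h - N = (c ^ 2 - h ^ 2) + 2 * (c + h) - N := by ring
      rw [this]
      exact (hn.add_even (even_two_mul _)).sub_even H.ev
    rw [e]
    exact H.zone0 S ho (by omega) (by omega)
  have hm2 : g ((c - h) * (c + h + 2)) = g (N + 1) := by
    have e : (c - h) * (c + h + 2) = N + ((c ^ 2 - h ^ 2) + 2 * c - 2 * h - N) := by ring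
    have ho : Odd ((c ^ 2 - h ^ 2) + 2 * c - 2 * h - N) := by
      have : (c ^ 2 - h ^ 2) + 2 * c - 2 * h - N = (c ^ 2 - h ^ 2) + 2 * (c - h) - N := by ring
      rw [this]
      exact (hn.add_even (even_two_mul _)).sub_even H.ev
    rw [e]
    exact H.zone0 S ho (by omega) (by omega)
  have hr := H.rect (c := c) (h := h) hh0 (by omega) (by rw [hm1, hm2])
  have e4 : (c + 2) ^ 2 - h ^ 2 = (c ^ 2 - h ^ 2) + 4 * c + 4 := by ring
  refine ⟨N - (c ^ 2 - h ^ 2), (c + 2) ^ 2 - h ^ 2 - N, ?_, hn'.sub_even H.ev, by omega,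
    by omega, by omega, by omega, ?_⟩
  · exact H.ev.sub_odd hn
  · rw [sub_sub_cancel, add_sub_cancel, hr]

/-- bridges from the left of the centre, distance `2 s + 2` to `2.6 s` -/
theorem Hyp.stepL (H : Hyp N g) {s lo : ℤ} (S : Big N s) (h1 : 2 * s + 2 ≤ lo)
    (h2 : 1000 * lo ≤ 2600 * s) :
    ∃ b₁ b₂ : ℤ, Odd b₁ ∧ Odd b₂ ∧ lo ≤ b₁ ∧ 1000 * b₁ ≤ 1000 * lo + 120 * s - 3000 ∧
      4 * s ≤ b₁ + b₂ ∧ b₁ + b₂ ≤ 4 * s + 4 ∧ g (N - b₁) = g (N + b₂) := by
  obtain ⟨S1, S2, S3⟩ := S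
  have S : Big N s := ⟨S1, S2, S3⟩
  have hY : 0 < N - lo := by nlinarith
  obtain ⟨c, h, hc0, hh0, hodd, c1, c2, n1, n2, hq⟩ := exH (N - lo) hY
  -- bounds for c
  have cs1 : s - 1 ≤ c := by
    by_contra hcon
    have : c ≤ s - 2 := by omega
    have := sqm hc0.le this
    nlinarith
  have cs2 : c ≤ s := by
    by_contra hcon
    have : s ≤ c - 1 := by omega
    have := sqm (by omega) this
    nlinarith
  have hhs : 100 * h ≤ 3 * s := by
    by_contra hcon
    have : 3 * s - 200 ≤ 100 * (h - 2) := by omega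
    have := sqm (by omega) this
    nlinarith
  have hO1 : Odd (c + h) := by
    have : c + h = (c - h) + 2 * h := by ring
    rw [this]
    exact hodd.add_even (even_two_mul h)
  have hO3 : Odd (c - h + 2) := hodd.add_even even_two
  have hO4 : Odd (c + h + 2) := hO1.add_even even_two
  have hn : Odd (c ^ 2 - h ^ 2) := by
    have : c ^ 2 - h ^ 2 = (c - h) * (c + h) := by ring
    rw [this]; exact hodd.mul hO1
  have hn' : Odd ((c + 2) ^ 2 - h ^ 2) := by
    have : (c + 2) ^ 2 - h ^ 2 = (c - h + 2) * (c + h + 2) := by ring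
    rw [this]; exact hO3.mul hO4
  have hm1 : g ((c - h + 2) * (c + h)) = g (N + 1) := by
    have e : (c - h + 2) * (c + h) = N + ((c ^ 2 - h ^ 2) + 2 * c + 2 * h - N) := by ring
    have ho : Odd ((c ^ 2 - h ^ 2) + 2 * c + 2 * h - N) := by
      have : (c ^ 2 - h ^ 2) + 2 * c + 2 * h - N = (c ^ 2 - h ^ 2) + 2 * (c + h) - N := by ring
      rw [this]
      exact (hn.add_even (even_two_mul _)).sub_even H.ev
    rw [e]
    exact H.zone0 S ho (by omega) (by omega)
  have hm2 : g ((c - h) * (c + h + 2)) = g (N + 1) := by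
    have e : (c - h) * (c + h + 2) = N + ((c ^ 2 - h ^ 2) + 2 * c - 2 * h - N) := by ring
    have ho : Odd ((c ^ 2 - h ^ 2) + 2 * c - 2 * h - N) := by
      have : (c ^ 2 - h ^ 2) + 2 * c - 2 * h - N = (c ^ 2 - h ^ 2) + 2 * (c - h) - N := by ring
      rw [this]
      exact (hn.add_even (even_two_mul _)).sub_even H.ev
    rw [e]
    exact H.zone0 S ho (by omega) (by omega)
  have hr := H.rect (c := c) (h := h) hh0 (by omega) (by rw [hm1, hm2])
  have e4 : (c + 2) ^ 2 - h ^ 2 = (c ^ 2 - h ^ 2) + 4 * c + 4 := by ring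
  refine ⟨N - (c ^ 2 - h ^ 2), (c + 2) ^ 2 - h ^ 2 - N, ?_, hn'.sub_even H.ev, by omega,
    by omega, by omega, by omega, ?_⟩
  · exact H.ev.sub_odd hn
  · rw [sub_sub_cancel, add_sub_cancel, hr]

/-- (i) the third right zone -/
theorem Hyp.brA3 (H : Hyp N g) {s b : ℤ} (S : Big N s) (hb : Odd b) (hA : InA N 3 b) :
    g (N + b) = g (N + 1) := by
  have hN := S.n16
  have hs := S.big
  obtain ⟨b₁, b₂, o1, o2, l1, l2, l3, l4, hg⟩ :=
    H.stepR (lo := (1172 * s) / 1000 + 5) S (by omega) (by omega)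
  have h1 : g (N - b₁) = g (N + 1) := by
    have := H.zone0 S (e := -b₁) o1.neg (by omega) (by omega)
    rwa [← sub_eq_add_neg] at this
  rw [H.zoneA (i := 3) (by omega) hb o2 (by omega) hA (inA3 S (by omega) (by omega)), ← hg, h1]

/-- (ii) the first left zone -/
theorem Hyp.brB1 (H : Hyp N g) {s b : ℤ} (S : Big N s) (hb : Odd b) (hB : InB N 1 b) :
    g (N - b) = g (N + 1) := by
  have hN := S.n16
  have hs := S.big
  obtain ⟨b₁, b₂, o1, o2, l1, l2, l3, l4, hg⟩ :=
    H.stepR (lo := (14143 * s) / 10000 + 3) S (by omega) (by omega)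
  rw [H.zoneB (i := 1) (by omega) hb o1 (by omega) hB (inB1 S (by omega) (by omega)), hg]
  exact H.brA3 S o2 (inA3 S (by omega) (by omega))

/-- (iii) the second right zone -/
theorem Hyp.brA2 (H : Hyp N g) {s b : ℤ} (S : Big N s) (hb : Odd b) (hA : InA N 2 b) :
    g (N + b) = g (N + 1) := by
  have hN := S.n16
  have hs := S.big
  obtain ⟨b₁, b₂, o1, o2, l1, l2, l3, l4, hg⟩ :=
    H.stepR (lo := (1551 * s) / 1000 + 5) S (by omega) (by omega)
  rw [H.zoneA (i := 2) (by omega) hb o2 (by omega) hA (inA2 S (by omega) (by omega)), ← hg]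
  exact H.brB1 S o1 (inB1 S (by omega) (by omega))

/-- (i') the third left zone -/
theorem Hyp.brB3 (H : Hyp N g) {s b : ℤ} (S : Big N s) (hb : Odd b) (hB : InB N 3 b) :
    g (N - b) = g (N + 1) := by
  have hN := S.n16
  have hs := S.big
  obtain ⟨b₁, b₂, o1, o2, l1, l2, l3, l4, hg⟩ :=
    H.stepL (lo := (2586 * s) / 1000 + 5) S (by omega) (by omega)
  have h1 : g (N + b₂) = g (N + 1) := H.zone0 S o2 (by omega) (by omega)
  rw [H.zoneB (i := 3) (by omega) hb o1 (by omega) hB (inB3 S (by omega) (by omega)), hg, h1]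

/-- (ii') the first right zone -/
theorem Hyp.brA1 (H : Hyp N g) {s b : ℤ} (S : Big N s) (hb : Odd b) (hA : InA N 1 b) :
    g (N + b) = g (N + 1) := by
  have hN := S.n16
  have hs := S.big
  obtain ⟨b₁, b₂, o1, o2, l1, l2, l3, l4, hg⟩ :=
    H.stepL (lo := (24495 * s) / 10000 + 2) S (by omega) (by omega)
  rw [H.zoneA (i := 1) (by omega) hb o2 (by omega) hA (inA1 S (by omega) (by omega)), ← hg]
  exact H.brB3 S o1 (inB3 S (by omega) (by omega))

/-- (iii') the second left zone -/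
theorem Hyp.brB2 (H : Hyp N g) {s b : ℤ} (S : Big N s) (hb : Odd b) (hB : InB N 2 b) :
    g (N - b) = g (N + 1) := by
  have hN := S.n16
  have hs := S.big
  obtain ⟨b₁, b₂, o1, o2, l1, l2, l3, l4, hg⟩ :=
    H.stepL (lo := 2 * s + 2) S (by omega) (by omega)
  rw [H.zoneB (i := 2) (by omega) hb o1 (by omega) hB (inB2 S (by omega) (by omega)), hg]
  exact H.brA1 S o2 (inA1 S (by omega) (by omega))

/-- the window -/
theorem Hyp.window (H : Hyp N g) {s e : ℤ} (S : Big N s) (he : Odd e)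
    (h1 : 1000 * e ≤ 2449 * s - 2000) (h2 : -(2449 * s - 2000) ≤ 1000 * e) :
    g (N + e) = g (N + 1) := by
  have hN := S.n16
  have hs := S.big
  obtain ⟨S1, S2, S3⟩ := S
  have S : Big N s := ⟨S1, S2, S3⟩
  rcases lt_trichotomy e 0 with h | h | h
  · obtain ⟨b, rfl⟩ : ∃ b, e = -b := ⟨-e, by ring⟩
    have hb : Odd b := by have := he.neg; rwa [neg_neg] at this
    rw [← sub_eq_add_neg]
    have hb0 : 0 < b := by omega
    rcases lt_or_ge (b * (b + 2 * 0)) ((2 * 0 + 2) * N - 1) with c0 | c0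
    · rw [H.zoneB (i := 0) le_rfl hb odd_one (by omega)
        ⟨hb0, by nlinarith [sq_nonneg (b - 1)], c0⟩ (inB0 S (by omega) (by omega))]
      exact H.centre (by omega)
    · rcases lt_or_ge (b * (b + 2 * 1)) ((2 * 1 + 2) * N - 1) with c1 | c1
      · exact H.brB1 S hb ⟨hb0, by nlinarith, c1⟩
      · refine H.brB2 S hb ⟨hb0, by nlinarith, ?_⟩
        have := sqm (x := 1000 * (b + 2)) (y := 2449 * s) (by omega) (by omega)
        nlinarith
  · subst h
    exact absurd he (by decide)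
  · rcases lt_or_ge ((e - 2) * (e - 2 * 0 - 2)) ((2 * 0 + 2) * N - 1) with c0 | c0
    · exact H.zoneA (i := 0) le_rfl he odd_one (by omega)
        ⟨h, by omega, by nlinarith [sq_nonneg (e - 1)], c0⟩ (inA0 S (by omega) (by omega))
    · have he3 : 3 ≤ e := by
        by_contra hcon
        have : e = 1 ∨ e = 2 := by omega
        rcases this with rfl | rfl <;> omega
      rcases lt_or_ge ((e - 2) * (e - 2 * 1 - 2)) ((2 * 1 + 2) * N - 1) with c1 | c1
      · exact H.brA1 S he ⟨h, by omega, by nlinarith, c1⟩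
      · have he5 : 5 ≤ e := by
          by_contra hcon
          have : e = 3 ∨ e = 4 := by omega
          rcases this with rfl | rfl <;> omega
        refine H.brA2 S he ⟨h, by omega, by nlinarith, ?_⟩
        have := sqm (x := 1000 * (e - 4)) (y := 2449 * s) (by omega) (by omega)
        nlinarith

end Pool.Agent.PAR
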