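import Mathlib

set_option autoImplicit false

/-!
# Certificates: numbers `d t^2` between `(N - 1)^2` and `(N + 1)^2`, three times the product of the
`d` being a square
-/

namespace Pool.Agent.PAR

/-- the conclusion of a certificate -/
def Good3 (N : ℕ) : Prop :=
  ∀ f : ℕ → ℤ, (∀ a b : ℕ, a ≠ 0 → b ≠ 0 → f (a * b) = f a * f b) →
    (∀ a : ℕ, a ≠ 0 → f a = 1 ∨ f a = -1) →
    (∀ m : ℕ, Odd m → (N - 1) ^ 2 < m → m < (N + 1) ^ 2 → f m = 1) → f 3 = 1

/-- one number `d * 2^23 + t` -/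
def okE (N x : ℕ) : Bool :=
  (x / 8388608 % 2 == 1) && (x % 8388608 % 2 == 1) &&
    Nat.blt ((N - 1) * (N - 1)) (x / 8388608 * ((x % 8388608) * (x % 8388608))) &&
    Nat.blt (x / 8388608 * ((x % 8388608) * (x % 8388608))) ((N + 1) * (N + 1))

/-- the product of the `d` -/
def prodD : List ℕ → ℕ
  | [] => 1
  | x :: l => x / 8388608 * prodD l

/-- all entries of a list -/
def allE (N : ℕ) : List ℕ → Bool
  | [] => true
  | x :: l => okE N x && allE N l

/-- one certificate -/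
def ok3 (N : ℕ) : List ℕ → Bool
  | [] => false
  | r :: l => (3 * prodD l == r * r) && Nat.blt 0 r && allE N l

/-- a list of certificates for `f i, f (i+1), ...` -/
def chk (f : ℕ → ℕ) : ℕ → List (List ℕ) → Bool
  | _, [] => true
  | i, x :: l => ok3 (f i) x && chk f (i + 1) l

theorem ok3_good {N : ℕ} {l : List ℕ} (h : ok3 N l = true) : Good3 N := by
  intro f hmul hval hone
  have hsq : ∀ t : ℕ, t ≠ 0 → f (t * t) = 1 := by
    intro t ht
    rw [hmul t t ht ht]
    rcases hval t ht with e | e <;> rw [e] <;> norm_num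
  have hE : ∀ x, okE N x = true → x / 8388608 ≠ 0 ∧ f (x / 8388608) = 1 := by
    intro x hx
    simp only [okE, Bool.and_eq_true, beq_iff_eq, Nat.blt_eq] at hx
    obtain ⟨⟨⟨h1, h2⟩, h3⟩, h4⟩ := hx
    have hd : Odd (x / 8388608) := Nat.odd_iff.2 h1
    have ht : Odd (x % 8388608) := Nat.odd_iff.2 h2
    refine ⟨hd.pos.ne', ?_⟩
    have h5 := hone _ (hd.mul (ht.mul ht)) (by rw [pow_two]; exact h3) (by rw [pow_two]; exact h4)
    rw [hmul _ _ hd.pos.ne' (mul_ne_zero ht.pos.ne' ht.pos.ne'), hsq _ ht.pos.ne', mul_one] at h5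
    exact h5
  have hA : ∀ l : List ℕ, allE N l = true → prodD l ≠ 0 ∧ f (prodD l) = 1 := by
    intro l
    induction l with
    | nil =>
      intro _
      refine ⟨one_ne_zero, ?_⟩
      have := hsq 1 one_ne_zero
      rwa [mul_one] at this
    | cons x l ih =>
      intro hl
      simp only [allE, Bool.and_eq_true] at hl
      obtain ⟨e1, e2⟩ := hE x hl.1
      obtain ⟨e3, e4⟩ := ih hl.2
      refine ⟨mul_ne_zero e1 e3, ?_⟩
      show f (x / 8388608 * prodD l) = 1
      rw [hmul _ _ e1 e3, e2, e4, one_mul]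
  cases l with
  | nil => simp [ok3] at h
  | cons r l =>
    simp only [ok3, Bool.and_eq_true, beq_iff_eq, Nat.blt_eq] at h
    obtain ⟨⟨h1, h2⟩, h3⟩ := h
    obtain ⟨e1, e2⟩ := hA l h3
    have h4 : f (3 * prodD l) = 1 := by rw [h1]; exact hsq r h2.ne'
    rw [hmul 3 _ (by norm_num) e1, e2, mul_one] at h4
    exact h4

theorem chk_good {f : ℕ → ℕ} : ∀ (l : List (List ℕ)) (i : ℕ), chk f i l = true →
    ∀ j, i ≤ j → j < i + l.length → Good3 (f j) := by
  intro l
  induction l with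
  | nil => intro i _ j h1 h2; simp at h2; omega
  | cons x l ih =>
    intro i h j h1 h2
    simp only [chk, Bool.and_eq_true] at h
    rcases eq_or_lt_of_le h1 with h3 | h3
    · rw [← h3]; exact ok3_good h.1
    · refine ih (i + 1) h.2 j h3 ?_
      simp only [List.length_cons] at h2
      omega

/-- even numbers -/
def f1 (i : ℕ) : ℕ := 2 * i

/-- `(S^2 - 1) / 2` with `S = 2 i + 1` -/
def f2 (i : ℕ) : ℕ := 2 * (i * (i + 1))

/-- the even ones among `w^2`, `w^2 - 1`, `w^2 - 2`: `4 v^2`, `4 v^2 - 2` and `4 v (v + 1)` -/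
def f3 (i : ℕ) : ℕ :=
  match i % 3 with
  | 0 => 4 * ((i / 3) * (i / 3)) - 2
  | 1 => 4 * ((i / 3) * (i / 3))
  | _ => 4 * ((i / 3) * (i / 3 + 1))

end Pool.Agent.PAR
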