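import Mathlib

set_option autoImplicit false

/-!
# Multiplicative functions on the odd integers between consecutive odd squares, chains

`N = 2 k`.  `g` is completely multiplicative with values `1`, `-1` and `g m = 1` for all odd `m` with
`(N - 1)^2 < m < (N + 1)^2`.
-/

namespace Pool.Agent.PAR

/-- the setting -/
structure Hyp (N : ℤ) (g : ℤ → ℤ) : Prop where
  ev : Even N
  mul : ∀ a b, 0 < a → 0 < b → g (a * b) = g a * g b
  sq : ∀ a, 0 < a → g a * g a = 1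
  one : ∀ m, Odd m → (N - 1) ^ 2 < m → m < (N + 1) ^ 2 → g m = 1

variable {N : ℤ} {g : ℤ → ℤ}

theorem Hyp.cancel (H : Hyp N g) {a b c : ℤ} (hc : 0 < c) (h : g a * g c = g b * g c) :
    g a = g b := by
  have h1 := H.sq c hc
  calc g a = g a * (g c * g c) := by rw [h1, mul_one]
    _ = (g a * g c) * g c := by ring
    _ = (g b * g c) * g c := by rw [h]
    _ = g b * (g c * g c) := by ring
    _ = g b := by rw [h1, mul_one]

theorem Hyp.edge (H : Hyp N g) {u v : ℤ} (hu : Odd u) (hv : Odd v) (hu0 : 0 < u) (hv0 : 0 < v)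
    (h1 : (N - 1) ^ 2 < u * v) (h2 : u * v < (N + 1) ^ 2) : g u = g v := by
  have h := H.one (u * v) (hu.mul hv) h1 h2
  rw [H.mul u v hu0 hv0] at h
  apply H.cancel hv0
  rw [h, H.sq v hv0]

/-- link on the right side -/
theorem Hyp.linkR (H : Hyp N g) {i b : ℤ} (hi : 0 ≤ i) (hb : Odd b) (hb0 : 0 < b)
    (hN : 4 * i + 4 ≤ N)
    (h1 : 2 * i * N - 1 < (b - 2 * i) * (b + 2)) (h2 : b * (b - 2 * i) < (2 * i + 2) * N - 1) :
    g (N + b) = g (N + b + 2) := by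
  have hNpos : 0 < N := by omega
  have ht : 0 < N - b + 2 * i := by
    by_contra hcon
    have hb' : N + 2 * i ≤ b := by omega
    nlinarith
  have htO : Odd (N - b + 2 * i) := by
    obtain ⟨x, hx⟩ := H.ev
    obtain ⟨y, hy⟩ := hb
    exact ⟨x - y - 1 + i, by omega⟩
  have hnO : Odd (N + b) := by
    obtain ⟨x, hx⟩ := H.ev
    obtain ⟨y, hy⟩ := hb
    exact ⟨x + y, by omega⟩
  have hnO' : Odd (N + b + 2) := by
    obtain ⟨x, hx⟩ := hnO
    exact ⟨x + 1, by omega⟩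
  have e1 : (N - b + 2 * i) * (N + b) = N ^ 2 + 2 * i * N - b * (b - 2 * i) := by ring
  have e2 : (N - b + 2 * i) * (N + b + 2) = N ^ 2 + (2 * i + 2) * N - (b - 2 * i) * (b + 2) := by
    ring
  have l1 : (N - 1) ^ 2 < (N - b + 2 * i) * (N + b) := by rw [e1]; nlinarith
  have l2 : (N - b + 2 * i) * (N + b + 2) < (N + 1) ^ 2 := by rw [e2]; nlinarith
  have l3 : (N - b + 2 * i) * (N + b) < (N - b + 2 * i) * (N + b + 2) := by nlinarith
  rw [← H.edge htO hnO ht (by omega) l1 (l3.trans l2)]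
  exact H.edge htO hnO' ht (by omega) (l1.trans l3) l2

/-- link on the left side -/
theorem Hyp.linkL (H : Hyp N g) {i b : ℤ} (hi : 0 ≤ i) (hb : Odd b) (hb0 : 0 < b)
    (hN : 4 * i + 4 ≤ N)
    (h1 : 2 * i * N - 1 < b * (b + 2 + 2 * i))
    (h2 : (b + 2) * (b + 2 + 2 * i) < (2 * i + 2) * N - 1) :
    g (N - b) = g (N - (b + 2)) := by
  have hNpos : 0 < N := by omega
  have hn : 0 < N - (b + 2) := by
    by_contra hcon
    have hb' : N ≤ b + 2 := by omega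
    nlinarith
  have htO : Odd (N + b + 2 + 2 * i) := by
    obtain ⟨x, hx⟩ := H.ev
    obtain ⟨y, hy⟩ := hb
    exact ⟨x + y + 1 + i, by omega⟩
  have hnO : Odd (N - b) := by
    obtain ⟨x, hx⟩ := H.ev
    obtain ⟨y, hy⟩ := hb
    exact ⟨x - y - 1, by omega⟩
  have hnO' : Odd (N - (b + 2)) := by
    obtain ⟨x, hx⟩ := hnO
    exact ⟨x - 1, by omega⟩
  have ht : 0 < N + b + 2 + 2 * i := by omega
  have e1 : (N + b + 2 + 2 * i) * (N - (b + 2)) =
      N ^ 2 + 2 * i * N - (b + 2) * (b + 2 + 2 * i) := by ring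
  have e2 : (N + b + 2 + 2 * i) * (N - b) = N ^ 2 + (2 * i + 2) * N - b * (b + 2 + 2 * i) := by
    ring
  have l1 : (N - 1) ^ 2 < (N + b + 2 + 2 * i) * (N - (b + 2)) := by rw [e1]; nlinarith
  have l2 : (N + b + 2 + 2 * i) * (N - b) < (N + 1) ^ 2 := by rw [e2]; nlinarith
  have l3 : (N + b + 2 + 2 * i) * (N - (b + 2)) < (N + b + 2 + 2 * i) * (N - b) := by nlinarith
  rw [← H.edge htO hnO ht (by omega) (l1.trans l3) l2]
  exact H.edge htO hnO' ht hn l1 (l3.trans l2)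

/-- right zone number `i` -/
def InA (N i b : ℤ) : Prop :=
  0 < b ∧ 0 < b - 2 * i ∧ 2 * i * N - 1 ≤ (b - 2) * (b - 2 * i) ∧
    (b - 2) * (b - 2 * i - 2) < (2 * i + 2) * N - 1

/-- left zone number `i` -/
def InB (N i b : ℤ) : Prop :=
  0 < b ∧ 2 * i * N - 1 ≤ b * (b + 2 * i - 2) ∧ b * (b + 2 * i) < (2 * i + 2) * N - 1

theorem Hyp.chainA (H : Hyp N g) {i b : ℤ} (hi : 0 ≤ i) (hb : Odd b) (hN : 4 * i + 4 ≤ N)
    (hA : 0 < b ∧ 0 < b - 2 * i ∧ 2 * i * N - 1 ≤ (b - 2) * (b - 2 * i)) (j : ℕ) :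
    (b + 2 * j - 2) * (b + 2 * j - 2 * i - 2) < (2 * i + 2) * N - 1 →
      g (N + (b + 2 * j)) = g (N + b) := by
  obtain ⟨h0, h1, h2⟩ := hA
  induction j with
  | zero => intro _; simp
  | succ j ih =>
    intro h3
    push_cast at h3 ⊢
    have hj : (0 : ℤ) ≤ j := Int.natCast_nonneg j
    have h4 : (b + 2 * j - 2) * (b + 2 * j - 2 * i - 2) < (2 * i + 2) * N - 1 := by nlinarith
    rw [← ih h4]
    have hO : Odd (b + 2 * (j : ℤ)) := by
      obtain ⟨x, hx⟩ := hb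
      exact ⟨x + j, by omega⟩
    have hl := H.linkR (i := i) (b := b + 2 * j) hi hO (by omega) hN (by nlinarith) (by nlinarith)
    rw [hl]
    congr 1
    ring

theorem Hyp.zoneA (H : Hyp N g) {i b b' : ℤ} (hi : 0 ≤ i) (hb : Odd b) (hb' : Odd b')
    (hN : 4 * i + 4 ≤ N) (hA : InA N i b) (hA' : InA N i b') : g (N + b) = g (N + b') := by
  wlog hle : b ≤ b' generalizing b b' with hw
  · exact (hw hb' hb hA' hA (by omega)).symm
  obtain ⟨x, hx⟩ := hb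
  obtain ⟨y, hy⟩ := hb'
  obtain ⟨j, hj⟩ := Int.eq_ofNat_of_zero_le (show 0 ≤ y - x by omega)
  have hbj : b' = b + 2 * j := by omega
  have := H.chainA (b := b) hi ⟨x, hx⟩ hN ⟨hA.1, hA.2.1, hA.2.2.1⟩ j
  rw [← hbj] at this
  exact (this hA'.2.2.2).symm

theorem Hyp.chainB (H : Hyp N g) {i b : ℤ} (hi : 0 ≤ i) (hb : Odd b) (hN : 4 * i + 4 ≤ N)
    (hB : 0 < b ∧ 2 * i * N - 1 ≤ b * (b + 2 * i - 2)) (j : ℕ) :
    (b + 2 * j) * (b + 2 * j + 2 * i) < (2 * i + 2) * N - 1 →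
      g (N - (b + 2 * j)) = g (N - b) := by
  obtain ⟨h0, h2⟩ := hB
  induction j with
  | zero => intro _; simp
  | succ j ih =>
    intro h3
    push_cast at h3 ⊢
    have hj : (0 : ℤ) ≤ j := Int.natCast_nonneg j
    have h4 : (b + 2 * j) * (b + 2 * j + 2 * i) < (2 * i + 2) * N - 1 := by nlinarith
    rw [← ih h4]
    have hO : Odd (b + 2 * (j : ℤ)) := by
      obtain ⟨x, hx⟩ := hb
      exact ⟨x + j, by omega⟩
    have hl := H.linkL (i := i) (b := b + 2 * j) hi hO (by omega) hN (by nlinarith) (by nlinarith)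
    rw [hl]
    congr 1
    ring

theorem Hyp.zoneB (H : Hyp N g) {i b b' : ℤ} (hi : 0 ≤ i) (hb : Odd b) (hb' : Odd b')
    (hN : 4 * i + 4 ≤ N) (hB : InB N i b) (hB' : InB N i b') : g (N - b) = g (N - b') := by
  wlog hle : b ≤ b' generalizing b b' with hw
  · exact (hw hb' hb hB' hB (by omega)).symm
  obtain ⟨x, hx⟩ := hb
  obtain ⟨y, hy⟩ := hb'
  obtain ⟨j, hj⟩ := Int.eq_ofNat_of_zero_le (show 0 ≤ y - x by omega)
  have hbj : b' = b + 2 * j := by omega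
  have := H.chainB (b := b) hi ⟨x, hx⟩ hN ⟨hB.1, hB.2.1⟩ j
  rw [← hbj] at this
  exact (this hB'.2.2).symm

/-- the two neighbours of the centre -/
theorem Hyp.centre (H : Hyp N g) (hN : 4 ≤ N) : g (N - 1) = g (N + 1) := by
  have h1 : Odd (N - 1) := by
    obtain ⟨x, hx⟩ := H.ev
    exact ⟨x - 1, by omega⟩
  have h2 : Odd (N + 1) := by
    obtain ⟨x, hx⟩ := H.ev
    exact ⟨x, by omega⟩
  exact H.edge h1 h2 (by omega) (by omega) (by nlinarith) (by nlinarith)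

/-- the square of side two -/
theorem Hyp.rect (H : Hyp N g) {c h : ℤ} (hh : 0 ≤ h) (hch : h < c)
    (hm : g ((c - h + 2) * (c + h)) = g ((c - h) * (c + h + 2))) :
    g ((c + 2) ^ 2 - h ^ 2) = g (c ^ 2 - h ^ 2) := by
  have p1 : 0 < c - h := by omega
  have p2 : 0 < c + h := by omega
  have p3 : 0 < c - h + 2 := by omega
  have p4 : 0 < c + h + 2 := by omega
  have e1 : (c + 2) ^ 2 - h ^ 2 = (c - h + 2) * (c + h + 2) := by ring
  have e2 : c ^ 2 - h ^ 2 = (c - h) * (c + h) := by ring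
  rw [e1, e2, H.mul _ _ p3 p4, H.mul _ _ p1 p2]
  rw [H.mul _ _ p3 p2, H.mul _ _ p1 p4] at hm
  -- hm : g(c-h+2) g(c+h) = g(c-h) g(c+h+2)
  have s2 := H.sq _ p2
  have s4 := H.sq _ p4
  calc g (c - h + 2) * g (c + h + 2)
      = (g (c - h + 2) * g (c + h)) * (g (c + h) * g (c + h + 2)) := by
        rw [show (g (c - h + 2) * g (c + h)) * (g (c + h) * g (c + h + 2)) =
          g (c - h + 2) * g (c + h + 2) * (g (c + h) * g (c + h)) by ring, s2, mul_one]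
    _ = (g (c - h) * g (c + h + 2)) * (g (c + h) * g (c + h + 2)) := by rw [hm]
    _ = g (c - h) * g (c + h) * (g (c + h + 2) * g (c + h + 2)) := by ring
    _ = g (c - h) * g (c + h) := by rw [s4, mul_one]

/-- differences of two squares just below `Y` -/
theorem exH (Y : ℤ) (hY : 0 < Y) : ∃ c h : ℤ, 0 < c ∧ 0 ≤ h ∧ Odd (c - h) ∧ (c - 1) ^ 2 < Y ∧
    Y ≤ c ^ 2 ∧ c ^ 2 - h ^ 2 ≤ Y ∧ Y - 4 * h + 3 ≤ c ^ 2 - h ^ 2 ∧ (h - 2) ^ 2 ≤ 2 * c := by
  obtain ⟨y, rfl⟩ := Int.eq_ofNat_of_zero_le hY.le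
  have hy : 0 < y := by exact_mod_cast hY
  -- c = ceil of the square root
  set d : ℕ := Nat.sqrt (y - 1) with hd
  have d1 : d * d ≤ y - 1 := Nat.sqrt_le (y - 1)
  have d2 : y - 1 < (d + 1) * (d + 1) := Nat.lt_succ_sqrt (y - 1)
  have hle : y ≤ (d + 1) * (d + 1) := by omega
  obtain ⟨x, hx⟩ := Nat.exists_eq_add_of_le hle
  set r : ℕ := Nat.sqrt x with hr
  have r1 : r * r ≤ x := Nat.sqrt_le x
  have r2 : x < (r + 1) * (r + 1) := Nat.lt_succ_sqrt x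
  have d1' : (d : ℤ) * d ≤ y - 1 := by
    have : d * d + 1 ≤ y := by omega
    have h' : ((d * d + 1 : ℕ) : ℤ) ≤ (y : ℤ) := by exact_mod_cast this
    push_cast at h'
    linarith
  have hx' : ((d : ℤ) + 1) * (d + 1) = y + x := by exact_mod_cast hx
  have r1' : (r : ℤ) * r ≤ x := by exact_mod_cast r1
  have r2' : (x : ℤ) < (r + 1) * (r + 1) := by exact_mod_cast r2
  have hr0 : (0 : ℤ) ≤ r := Int.natCast_nonneg r
  have hd0 : (0 : ℤ) ≤ d := Int.natCast_nonneg d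
  have hy' : (0 : ℤ) < y := by exact_mod_cast hy
  have key : ∀ h : ℤ, (h = r + 1 ∨ h = r + 2) → Odd ((d : ℤ) + 1 - h) →
      ∃ c h : ℤ, 0 < c ∧ 0 ≤ h ∧ Odd (c - h) ∧ (c - 1) ^ 2 < ((y : ℕ) : ℤ) ∧
      ((y : ℕ) : ℤ) ≤ c ^ 2 ∧ c ^ 2 - h ^ 2 ≤ ((y : ℕ) : ℤ) ∧
      ((y : ℕ) : ℤ) - 4 * h + 3 ≤ c ^ 2 - h ^ 2 ∧ (h - 2) ^ 2 ≤ 2 * c := by
    intro h hh hodd
    refine ⟨(d : ℤ) + 1, h, by omega, by omega, hodd, by nlinarith, by nlinarith, ?_, ?_, ?_⟩
    · rcases hh with rfl | rfl <;> nlinarith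
    · rcases hh with rfl | rfl <;> nlinarith
    · rcases hh with rfl | rfl <;> nlinarith
  rcases Int.even_or_odd ((d : ℤ) + 1 - (r + 1)) with hE | hO
  · refine key (r + 2) (Or.inr rfl) ?_
    obtain ⟨w, hw⟩ := hE
    exact ⟨w - 1, by omega⟩
  · exact key (r + 1) (Or.inl rfl) hO

end Pool.Agent.PAR
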