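import Mathlib

set_option autoImplicit false

/-!
# Products of distinct elements modulo squares and functions with values `1`, `-1`
-/

namespace Pool.Agent.PAR

/-- the vector of exponents modulo two -/
noncomputable def vec (n : ℕ) : ℕ → ZMod 2 := fun q => (n.factorization q : ZMod 2)

theorem vec_mul {a b : ℕ} (ha : a ≠ 0) (hb : b ≠ 0) : vec (a * b) = vec a + vec b := by
  funext q
  simp only [vec, Nat.factorization_mul ha hb, Finsupp.add_apply, Pi.add_apply, Nat.cast_add]

theorem vec_prod (S : Finset ℕ) (h : ∀ m ∈ S, m ≠ 0) : vec (∏ m ∈ S, m) = ∑ m ∈ S, vec m := by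
  classical
  induction S using Finset.induction_on with
  | empty =>
    simp only [Finset.prod_empty, Finset.sum_empty]
    funext q
    simp [vec]
  | insert a S ha ih =>
    rw [Finset.prod_insert ha, Finset.sum_insert ha,
      vec_mul (h a (Finset.mem_insert_self a S))
        (Finset.prod_ne_zero_iff.2 fun m hm => h m (Finset.mem_insert_of_mem hm)),
      ih fun m hm => h m (Finset.mem_insert_of_mem hm)]

theorem isSquare_of_vec {n : ℕ} (hn : n ≠ 0) (h : vec n = 0) : IsSquare n := by
  obtain ⟨a, b, hab, hsq⟩ := Nat.sq_mul_squarefree n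
  have hb : b ≠ 0 := by
    rintro rfl
    simp at hab
    exact hn hab.symm
  have ha : a ≠ 0 := hsq.ne_zero
  have h1 : a = 1 := by
    by_contra hne
    obtain ⟨q, hq, hqa⟩ := Nat.exists_prime_and_dvd hne
    have e1 : a.factorization q = 1 := by
      have l1 := hsq.natFactorization_le_one q
      have l2 := (hq.dvd_iff_one_le_factorization ha).1 hqa
      omega
    have e2 : n.factorization q = 2 * b.factorization q + 1 := by
      rw [← hab, Nat.factorization_mul (pow_ne_zero 2 hb) ha, Nat.factorization_pow,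
        Finsupp.add_apply, e1]
      rfl
    have e3 : (n.factorization q : ZMod 2) = 0 := congrFun h q
    rw [e2, ZMod.natCast_eq_zero_iff] at e3
    omega
  rw [← hab, h1, mul_one]
  exact ⟨b, pow_two b⟩

/-- duality -/
theorem dual (M : Set ℕ) (hM : ∀ m ∈ M, m ≠ 0) (p : ℕ) (hp : p ≠ 0)
    (h : ∀ f : ℕ → ℤ, (∀ a b : ℕ, a ≠ 0 → b ≠ 0 → f (a * b) = f a * f b) →
      (∀ a : ℕ, a ≠ 0 → f a = 1 ∨ f a = -1) → (∀ m ∈ M, f m = 1) → f p = 1) :
    ∃ S : Finset ℕ, (∀ m ∈ S, m ∈ M) ∧ IsSquare (p * ∏ m ∈ S, m) := by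
  have key : vec p ∈ Submodule.span (ZMod 2) (vec '' M) := by
    by_contra hcon
    obtain ⟨φ, hφ, hle⟩ := Submodule.exists_le_ker_of_notMem hcon
    have h2 : ∀ x : ZMod 2, x = 0 ∨ x = 1 := by decide
    have hf := h (fun n => if φ (vec n) = 0 then 1 else -1) ?_ ?_ ?_
    · simp only [if_neg hφ] at hf
      norm_num at hf
    · intro a b ha hb
      rw [vec_mul ha hb, map_add]
      rcases h2 (φ (vec a)) with e1 | e1 <;> rcases h2 (φ (vec b)) with e2 | e2 <;>
        rw [e1, e2] <;> decide
    · intro a _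
      by_cases e : φ (vec a) = 0
      · left; simp only [if_pos e]
      · right; simp only [if_neg e]
    · intro m hm
      have : vec m ∈ Submodule.span (ZMod 2) (vec '' M) :=
        Submodule.subset_span ⟨m, hm, rfl⟩
      have e : φ (vec m) = 0 := hle this
      simp only [if_pos e]
  rw [Finsupp.mem_span_image_iff_linearCombination] at key
  obtain ⟨l, hl, hlp⟩ := key
  have hS : ∀ m ∈ l.support, m ∈ M := fun m hm => hl hm
  refine ⟨l.support, hS, ?_⟩
  have hprod : ∏ m ∈ l.support, m ≠ 0 := Finset.prod_ne_zero_iff.2 fun m hm => hM m (hS m hm)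
  apply isSquare_of_vec (mul_ne_zero hp hprod)
  rw [vec_mul hp hprod, vec_prod _ fun m hm => hM m (hS m hm)]
  have e : ∑ m ∈ l.support, vec m = vec p := by
    rw [← hlp, Finsupp.linearCombination_apply, Finsupp.sum]
    refine Finset.sum_congr rfl fun m hm => ?_
    have h2 : ∀ x : ZMod 2, x ≠ 0 → x = 1 := by decide
    rw [h2 (l m) (Finsupp.mem_support_iff.1 hm), one_smul]
  rw [e]
  funext q
  exact CharTwo.add_self_eq_zero (vec p q)

end Pool.Agent.PAR
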