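import Pool.Agent.Helper19_PAR.Bridge

set_option autoImplicit false

/-!
# From the window around `N` to all small odd numbers
-/

namespace Pool.Agent.PAR

variable {N : ℤ} {g : ℤ → ℤ}

theorem Hyp.stepP (H : Hyp N g) {B c : ℤ} (hNB : 0 < N - B)
    (W : ∀ n, Odd n → N - B ≤ n → n ≤ N + B → g n = c) {p : ℤ} (hp : Odd p) (hp0 : 0 < p)
    (hq : p ^ 2 - (B - 2) * p + N - B ≤ 0) : g p = g (p + 2) := by
  -- the least odd `q` with `N - B ≤ p q`
  obtain ⟨q, hqO, hq1, hq2⟩ : ∃ q : ℤ, Odd q ∧ N - B ≤ p * q ∧ p * q < N - B + 2 * p := by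
    have hd := Int.mul_ediv_add_emod (N - B) p
    have hm0 := Int.emod_nonneg (N - B) hp0.ne'
    have hm1 := Int.emod_lt_of_pos (N - B) hp0
    set d := (N - B) / p
    set m := (N - B) % p
    rcases Int.even_or_odd d with he | ho
    · rcases eq_or_lt_of_le hm0 with h | h
      · refine ⟨d + 1, he.add_one, by nlinarith, by nlinarith⟩
      · refine ⟨d + 1, he.add_one, by nlinarith, by nlinarith⟩
    · rcases eq_or_lt_of_le hm0 with h | h
      · refine ⟨d, ho, by nlinarith, by nlinarith⟩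
      · refine ⟨d + 2, ho.add_even even_two, by nlinarith, by nlinarith⟩
  have hq0 : 0 < q := by
    by_contra hcon
    have : q ≤ 0 := not_lt.1 hcon
    nlinarith
  have hpq : p + q < B := by
    by_contra hcon
    have : B ≤ p + q := not_lt.1 hcon
    nlinarith
  have h1 : g (p * q) = c := W _ (hp.mul hqO) hq1 (by nlinarith)
  have h2 : g ((p + 2) * q) = c :=
    W _ ((hp.add_even even_two).mul hqO) (by nlinarith) (by nlinarith)
  rw [H.mul _ _ hp0 hq0] at h1
  rw [H.mul _ _ (by omega) hq0] at h2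
  exact H.cancel hq0 (h1.trans h2.symm)

theorem constOdd {g : ℤ → ℤ} {lo hi : ℤ} (h : ∀ p, Odd p → lo ≤ p → p ≤ hi → g p = g (p + 2))
    {p p' : ℤ} (hp : Odd p) (hp' : Odd p') (h1 : lo ≤ p) (h2 : p ≤ p') (h3 : p' ≤ hi + 2) :
    g p = g p' := by
  obtain ⟨x, hx⟩ := hp
  obtain ⟨y, hy⟩ := hp'
  obtain ⟨j, hj⟩ := Int.eq_ofNat_of_zero_le (show 0 ≤ y - x by omega)
  have key : ∀ j : ℕ, p + 2 * j ≤ hi + 2 → g p = g (p + 2 * j) := by
    intro j
    induction j with
    | zero => intro _; simp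
    | succ j ih =>
      intro hle
      push_cast at hle ⊢
      rw [ih (by omega), h (p + 2 * j) ⟨x + j, by omega⟩ (by omega) (by omega)]
      congr 1
      ring
  have : p' = p + 2 * j := by omega
  rw [this]
  exact key j (by omega)

theorem Hyp.level (H : Hyp N g) {lo hi p0 : ℤ} (hlo : 0 < lo)
    (h : ∀ p, Odd p → lo ≤ p → p ≤ hi → g p = g (p + 2))
    (hp0 : Odd p0) (h0 : lo ≤ p0) (h1 : 3 * p0 ≤ hi + 2) :
    ∀ p, Odd p → 0 < p → p ≤ hi + 2 → g p = 1 := by
  have hpp : 0 < p0 := by omega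
  have g3 : g 3 = 1 := by
    have e : g p0 = g (3 * p0) :=
      constOdd h hp0 ((by decide : Odd (3 : ℤ)).mul hp0) h0 (by omega) h1
    rw [H.mul 3 p0 (by norm_num) hpp] at e
    have s := H.sq p0 hpp
    calc g 3 = g 3 * (g p0 * g p0) := by rw [s, mul_one]
      _ = (g 3 * g p0) * g p0 := by ring
      _ = g p0 * g p0 := by rw [← e]
      _ = 1 := s
  have key : ∀ k : ℕ, ∀ p, Odd p → 0 < p → p ≤ hi + 2 → hi + 2 - p ≤ k → g p = g p0 := by
    intro k
    induction k with
    | zero =>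
      intro p hp hpos hle hk
      have : p = hi + 2 := by push_cast at hk; omega
      exact (constOdd h hp0 hp h0 (by omega) hle).symm
    | succ k ih =>
      intro p hp hpos hle hk
      push_cast at hk
      rcases le_or_gt lo p with hl | hl
      · rcases le_total p p0 with h2 | h2
        · exact constOdd h hp hp0 hl h2 (by omega)
        · exact (constOdd h hp0 hp h0 h2 hle).symm
      · have h3 : g (3 * p) = g p0 :=
          ih (3 * p) ((by decide : Odd (3 : ℤ)).mul hp) (by omega) (by omega) (by omega)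
        rw [H.mul 3 p (by norm_num) hpos, g3, one_mul] at h3
        exact h3
  have g1 : g 1 = 1 := by
    have := H.mul 1 1 one_pos one_pos
    rw [mul_one] at this
    rw [this]
    exact H.sq 1 one_pos
  have gp0 : g p0 = 1 := by
    rw [← g1]
    exact (key (hi + 2).toNat 1 odd_one one_pos (by omega) (by omega)).symm
  intro p hp hpos hle
  rw [← gp0]
  exact key (hi + 2).toNat p hp hpos hle (by omega)

/-- large `N`: all odd `p ≤ 1.9 s` -/
theorem Hyp.small (H : Hyp N g) {s : ℤ} (S : Big N s) :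
    ∀ p, Odd p → 0 < p → 10 * p ≤ 19 * s → g p = 1 := by
  obtain ⟨S1, S2, S3⟩ := S
  have S : Big N s := ⟨S1, S2, S3⟩
  have hN := S.n16
  set B : ℤ := (2449 * s) / 1000 - 2 with hB
  have hB1 : 1000 * B ≤ 2449 * s - 2000 := by omega
  have hB2 : 2449 * s - 3000 ≤ 1000 * B := by omega
  have W : ∀ n, Odd n → N - B ≤ n → n ≤ N + B → g n = g (N + 1) := by
    intro n hn h1 h2
    have := H.window S (e := n - N) (hn.sub_even H.ev) (by omega) (by omega)
    rwa [add_sub_cancel] at this
  have hNB : 0 < N - B := by nlinarith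
  have hst : ∀ p, Odd p → (53 * s) / 100 + 1 ≤ p → p ≤ (19 * s) / 10 → g p = g (p + 2) := by
    intro p hp h1 h2
    refine H.stepP hNB W hp (by omega) ?_
    have a1 : 0 ≤ 100 * p - 53 * s := by omega
    have a2 : 0 ≤ 19 * s - 10 * p := by omega
    nlinarith [mul_nonneg a1 a2]
  obtain ⟨p0, hp0, l1, l2⟩ : ∃ p0 : ℤ, Odd p0 ∧ (53 * s) / 100 + 1 ≤ p0 ∧
      p0 ≤ (53 * s) / 100 + 2 := by
    rcases Int.even_or_odd ((53 * s) / 100 + 1) with he | ho
    · exact ⟨_, he.add_one, by omega, by omega⟩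
    · exact ⟨_, ho, le_rfl, by omega⟩
  intro p hp hpos hle
  exact H.level (lo := (53 * s) / 100 + 1) (hi := (19 * s) / 10) (by omega) hst hp0 l1
    (by omega) p hp hpos (by omega)

end Pool.Agent.PAR
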