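import Pool.Agent.Helper19_PAR.Mid
import Pool.Agent.Helper19_PAR.Dual
import Pool.Agent.Helper19_PAR.K1
import Pool.Agent.Helper19_PAR.K2
import Pool.Agent.Helper19_PAR.K3

set_option autoImplicit false

/-!
# The theorems
-/

namespace Pool.Agent.PAR

/-- transfer of a function on the natural numbers -/
theorem hyp_of {k : ℕ} (f : ℕ → ℤ)
    (hmul : ∀ a b : ℕ, a ≠ 0 → b ≠ 0 → f (a * b) = f a * f b)
    (hval : ∀ a : ℕ, a ≠ 0 → f a = 1 ∨ f a = -1)
    (hone : ∀ m : ℕ, Odd m → (2 * k - 1) ^ 2 < m → m < (2 * k + 1) ^ 2 → f m = 1)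
    (hk : 1 ≤ k) :
    Hyp (2 * (k : ℤ)) (fun n => f n.toNat) := by
  refine ⟨even_two_mul _, ?_, ?_, ?_⟩
  · intro a b ha hb
    show f (a * b).toNat = f a.toNat * f b.toNat
    rw [Int.toNat_mul ha.le hb.le]
    exact hmul _ _ (by omega) (by omega)
  · intro a ha
    show f a.toNat * f a.toNat = 1
    rcases hval a.toNat (by omega) with h | h <;> rw [h] <;> norm_num
  · intro m hm h1 h2
    show f m.toNat = 1
    have hm0 : 0 ≤ m := by nlinarith [sq_nonneg (2 * (k : ℤ) - 1)]
    obtain ⟨n, rfl⟩ := Int.eq_ofNat_of_zero_le hm0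
    rw [Int.toNat_natCast]
    refine hone n (by exact_mod_cast hm) ?_ (by exact_mod_cast h2)
    have : ((2 * k - 1 : ℕ) : ℤ) = 2 * (k : ℤ) - 1 := by omega
    zify
    rw [this]
    exact h1

/-- large `k`: all odd numbers `p` with `p ^ 2 ≤ 7 k` -/
theorem large {k : ℕ} (f : ℕ → ℤ)
    (hmul : ∀ a b : ℕ, a ≠ 0 → b ≠ 0 → f (a * b) = f a * f b)
    (hval : ∀ a : ℕ, a ≠ 0 → f a = 1 ∨ f a = -1) (hk : 3000000 ≤ k)
    (hone : ∀ m : ℕ, Odd m → (2 * k - 1) ^ 2 < m → m < (2 * k + 1) ^ 2 → f m = 1)
    {p : ℕ} (hp : Odd p) (hpk : p ^ 2 ≤ 7 * k) : f p = 1 := by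
  have H := hyp_of f hmul hval hone (by omega)
  obtain ⟨s, hs⟩ : ∃ s, s = Nat.sqrt (2 * k) := ⟨_, rfl⟩
  have s1 : s ^ 2 ≤ 2 * k := by rw [hs]; exact Nat.sqrt_le' (2 * k)
  have s2 : 2 * k < (s + 1) ^ 2 := by rw [hs]; exact Nat.lt_succ_sqrt' (2 * k)
  have s3 : 2449 ≤ s := by rw [hs, Nat.le_sqrt]; omega
  have S : Big (2 * (k : ℤ)) (s : ℤ) := by
    refine ⟨?_, ?_, ?_⟩
    · exact_mod_cast s1
    · exact_mod_cast s2
    · exact_mod_cast s3
  have hp0 : 0 < p := hp.pos
  have h1 : 10 * p ≤ 19 * s := by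
    by_contra hcon
    push Not at hcon
    have e1 : 19 * s + 1 ≤ 10 * p := hcon
    have e2 : (19 * s + 1) ^ 2 ≤ (10 * p) ^ 2 := Nat.pow_le_pow_left e1 2
    nlinarith
  have h2 := H.small S (p : ℤ) (by exact_mod_cast hp) (by exact_mod_cast hp0)
    (by exact_mod_cast h1)
  simpa using h2

/-- all `k` except `2` -/
theorem good3 (k : ℕ) (hk : 1 ≤ k) (hk2 : k ≠ 2) : Good3 (2 * k) := by
  rcases lt_or_ge k 3 with h3 | h3
  · have : k = 1 := by omega
    subst this
    exact ok3_good (N := 2) (l := [3, 25165825]) (by decide +kernel)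
  rcases lt_or_ge k 3501 with h0 | h0
  · exact k1_all k h3 h0
  intro f hmul hval hev
  rcases lt_or_ge k 3000000 with h1 | h1
  · -- the middle range
    have H := hyp_of f hmul hval hev hk
    obtain ⟨s, hs⟩ : ∃ s, s = Nat.sqrt (2 * k) := ⟨_, rfl⟩
    have s1 : s ^ 2 ≤ 2 * k := by rw [hs]; exact Nat.sqrt_le' (2 * k)
    have s2 : 2 * k < (s + 1) ^ 2 := by rw [hs]; exact Nat.lt_succ_sqrt' (2 * k)
    have s3 : 83 ≤ s := by rw [hs, Nat.le_sqrt]; omega
    by_cases C : NoCut (2 * (k : ℤ))
    · exact H.three C (s := (s : ℤ)) (by exact_mod_cast s3) (by exact_mod_cast s1)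
        (by exact_mod_cast s2)
    · suffices hG : Good3 (2 * k) from hG f hmul hval hev
      have C' : (∃ b : ℤ, b ^ 2 = 2 * (2 * (k : ℤ)) + 1) ∨
          ∃ w : ℤ, 2 * (k : ℤ) ≤ w ^ 2 ∧ w ^ 2 ≤ 2 * (k : ℤ) + 2 := by
        by_contra hc
        push Not at hc
        exact C ⟨hc.1, fun w hw => absurd hw.2 (not_le.2 (hc.2 w hw.1))⟩
      rcases C' with ⟨b, hb⟩ | ⟨w, hw1, hw2⟩
      · -- `2 N + 1` is a square
        have hb' : b.natAbs ^ 2 = 2 * (2 * k) + 1 := by
          zify
          rw [sq_abs]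
          exact hb
        set B := b.natAbs with hB
        have hBo : Odd B := by
          by_contra hcc
          rw [Nat.not_odd_iff_even] at hcc
          obtain ⟨y, hy⟩ := hcc
          have : B ^ 2 = 2 * (2 * y ^ 2) := by rw [hy]; ring
          omega
        obtain ⟨i, hi⟩ := hBo
        have e : 2 * k = f2 i := by
          have : (2 * i + 1) ^ 2 = 2 * (2 * k) + 1 := by rw [← hi]; exact hb'
          unfold f2
          nlinarith
        rw [e]
        refine k2_all i ?_ ?_
        · by_contra hc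
          have : i ≤ 56 := by omega
          unfold f2 at e
          nlinarith
        · by_contra hc
          have : 1732 ≤ i := by omega
          unfold f2 at e
          nlinarith
      · have hw1' : 2 * k ≤ w.natAbs ^ 2 := by
          zify
          rw [sq_abs]
          exact hw1
        have hw2' : w.natAbs ^ 2 ≤ 2 * k + 2 := by
          zify
          rw [sq_abs]
          exact hw2
        set W := w.natAbs with hW
        rcases Nat.even_or_odd' W with ⟨v, hv | hv⟩
        · have e : W ^ 2 = 4 * (v * v) := by rw [hv]; ring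
          have e2 : 2 * k = 4 * (v * v) - 2 ∨ 2 * k = 4 * (v * v) := by
            rw [e] at hw1' hw2'
            omega
          have v1 : 41 ≤ v := by
            by_contra hc
            have : v ≤ 40 := by omega
            nlinarith
          have v2 : v ≤ 1225 := by
            by_contra hc
            have : 1226 ≤ v := by omega
            nlinarith
          rcases e2 with e2 | e2
          · have e3 : f3 (3 * v) = 4 * (v * v) - 2 := by
              have a1 : 3 * v % 3 = 0 := by omega
              have a2 : 3 * v / 3 = v := by omega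
              simp only [f3, a1, a2]
            rw [e2, ← e3]
            exact k3_all _ (by omega) (by omega)
          · have e3 : f3 (3 * v + 1) = 4 * (v * v) := by
              have a1 : (3 * v + 1) % 3 = 1 := by omega
              have a2 : (3 * v + 1) / 3 = v := by omega
              simp only [f3, a1, a2]
            rw [e2, ← e3]
            exact k3_all _ (by omega) (by omega)
        · have e : W ^ 2 = 4 * (v * (v + 1)) + 1 := by rw [hv]; ring
          have e2 : 2 * k = 4 * (v * (v + 1)) := by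
            rw [e] at hw1' hw2'
            omega
          have v1 : 41 ≤ v := by
            by_contra hc
            have : v ≤ 40 := by omega
            nlinarith
          have v2 : v ≤ 1225 := by
            by_contra hc
            have : 1226 ≤ v := by omega
            nlinarith
          have e3 : f3 (3 * v + 2) = 4 * (v * (v + 1)) := by
            have a1 : (3 * v + 2) % 3 = 2 := by omega
            have a2 : (3 * v + 2) / 3 = v := by omega
            simp only [f3, a1, a2]
          rw [e2, ← e3]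
          exact k3_all _ (by omega) (by omega)
  · exact large f hmul hval h1 hev (p := 3) (by decide) (by omega)

/-- three times a product of distinct odd numbers between consecutive odd squares is a square -/
theorem square3 (k : ℕ) (hk : 1 ≤ k) (hk2 : k ≠ 2) :
    ∃ S : Finset ℕ, (∀ m ∈ S, Odd m ∧ (2 * k - 1) ^ 2 < m ∧ m < (2 * k + 1) ^ 2) ∧
      IsSquare (3 * ∏ m ∈ S, m) := by
  refine dual {m | Odd m ∧ (2 * k - 1) ^ 2 < m ∧ m < (2 * k + 1) ^ 2}
    (fun m hm => hm.1.pos.ne') 3 (by norm_num) ?_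
  intro f hmul hval hone
  exact good3 k hk hk2 f hmul hval fun m h1 h2 h3 => hone m ⟨h1, h2, h3⟩

/-- large `k`, all odd primes up to the root of `7 k` -/
theorem squareP (k : ℕ) (hk : 3000000 ≤ k) (p : ℕ) (hp : Odd p) (hpk : p ^ 2 ≤ 7 * k) :
    ∃ S : Finset ℕ, (∀ m ∈ S, Odd m ∧ (2 * k - 1) ^ 2 < m ∧ m < (2 * k + 1) ^ 2) ∧
      IsSquare (p * ∏ m ∈ S, m) := by
  refine dual {m | Odd m ∧ (2 * k - 1) ^ 2 < m ∧ m < (2 * k + 1) ^ 2}
    (fun m hm => hm.1.pos.ne') p hp.pos.ne' ?_
  intro f hmul hval hone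
  exact large f hmul hval hk (fun m h1 h2 h3 => hone m ⟨h1, h2, h3⟩) hp hpk

/-- the exception `k = 2` -/
theorem not2 : ¬ ∃ S : Finset ℕ, (∀ m ∈ S, Odd m ∧ (2 * 2 - 1) ^ 2 < m ∧ m < (2 * 2 + 1) ^ 2) ∧
    IsSquare (3 * ∏ m ∈ S, m) := by
  rintro ⟨S, hS, r, hr⟩
  -- the function `-1` at `3`, `5`, `7`
  have f : ∀ n : ℕ, ∃ e : ℕ, e = padicValNat 3 n + padicValNat 5 n + padicValNat 7 n :=
    fun n => ⟨_, rfl⟩
  have hS0 : ∀ m ∈ S, m ≠ 0 := fun m hm => (hS m hm).1.pos.ne'
  have hmem : ∀ m ∈ S, m = 11 ∨ m = 13 ∨ m = 15 ∨ m = 17 ∨ m = 19 ∨ m = 21 ∨ m = 23 := by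
    intro m hm
    obtain ⟨⟨y, hy⟩, h2, h3⟩ := hS m hm
    omega
  have h5 : ∀ T : Finset ℕ, T ⊆ S →
      Even (padicValNat 3 (∏ m ∈ T, m) + padicValNat 5 (∏ m ∈ T, m) +
        padicValNat 7 (∏ m ∈ T, m)) := by
    intro T
    induction T using Finset.induction_on with
    | empty => intro _; simp
    | insert a T ha ih =>
      intro hT
      have haS := hT (Finset.mem_insert_self a T)
      have hTS : T ⊆ S := (Finset.subset_insert a T).trans hT
      have hP : ∏ m ∈ T, m ≠ 0 := Finset.prod_ne_zero_iff.2 fun m hm => hS0 m (hTS hm)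
      have : Fact (Nat.Prime 3) := ⟨by norm_num⟩
      have : Fact (Nat.Prime 5) := ⟨by norm_num⟩
      have : Fact (Nat.Prime 7) := ⟨by norm_num⟩
      rw [Finset.prod_insert ha, padicValNat.mul (hS0 a haS) hP, padicValNat.mul (hS0 a haS) hP,
        padicValNat.mul (hS0 a haS) hP]
      have hE : Even (padicValNat 3 a + padicValNat 5 a + padicValNat 7 a) := by
        have z : ∀ q n : ℕ, ¬ q ∣ n → padicValNat q n = 0 := fun q n h =>
          padicValNat.eq_zero_of_not_dvd h
        rcases hmem a haS with rfl | rfl | rfl | rfl | rfl | rfl | rfl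
        · rw [z 3 11 (by decide), z 5 11 (by decide), z 7 11 (by decide)]; decide
        · rw [z 3 13 (by decide), z 5 13 (by decide), z 7 13 (by decide)]; decide
        · rw [show (15 : ℕ) = 3 * 5 by norm_num, padicValNat.mul (by norm_num) (by norm_num),
            padicValNat.mul (by norm_num) (by norm_num),
            padicValNat.mul (by norm_num) (by norm_num),
            padicValNat_self, padicValNat_self, z 3 5 (by decide), z 5 3 (by decide),
            z 7 3 (by decide), z 7 5 (by decide)]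
          decide
        · rw [z 3 17 (by decide), z 5 17 (by decide), z 7 17 (by decide)]; decide
        · rw [z 3 19 (by decide), z 5 19 (by decide), z 7 19 (by decide)]; decide
        · rw [show (21 : ℕ) = 3 * 7 by norm_num, padicValNat.mul (by norm_num) (by norm_num),
            padicValNat.mul (by norm_num) (by norm_num),
            padicValNat.mul (by norm_num) (by norm_num),
            padicValNat_self, padicValNat_self, z 3 7 (by decide), z 5 3 (by decide),
            z 7 3 (by decide), z 5 7 (by decide)]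
          decide
        · rw [z 3 23 (by decide), z 5 23 (by decide), z 7 23 (by decide)]; decide
      have := hE.add (ih hTS)
      obtain ⟨y, hy⟩ := this
      exact ⟨y, by omega⟩
  have hP : ∏ m ∈ S, m ≠ 0 := Finset.prod_ne_zero_iff.2 fun m hm => hS0 m hm
  have h6 := h5 S (Finset.Subset.refl S)
  have hr0 : r ≠ 0 := by
    rintro rfl
    rw [mul_zero] at hr
    exact (mul_ne_zero (by norm_num) hP) hr
  have : Fact (Nat.Prime 3) := ⟨by norm_num⟩
  have : Fact (Nat.Prime 5) := ⟨by norm_num⟩
  have : Fact (Nat.Prime 7) := ⟨by norm_num⟩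
  have g3 := congrArg (padicValNat 3) hr
  have g5 := congrArg (padicValNat 5) hr
  have g7 := congrArg (padicValNat 7) hr
  rw [padicValNat.mul (by norm_num) hP, padicValNat.mul hr0 hr0] at g3 g5 g7
  rw [padicValNat_self] at g3
  rw [padicValNat.eq_zero_of_not_dvd (by decide : ¬ 5 ∣ 3)] at g5
  rw [padicValNat.eq_zero_of_not_dvd (by decide : ¬ 7 ∣ 3)] at g7
  obtain ⟨y, hy⟩ := h6
  omega

open ArithmeticFunction in
/-- every interval between consecutive odd squares contains an odd number with an odd number of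
prime factors -/
theorem parity (k : ℕ) (hk : 1 ≤ k) :
    ∃ m : ℕ, Odd m ∧ (2 * k - 1) ^ 2 < m ∧ m < (2 * k + 1) ^ 2 ∧ Odd (cardFactors m) := by
  rcases eq_or_ne k 2 with h2 | h2
  · subst h2
    refine ⟨11, by decide, by norm_num, by norm_num, ?_⟩
    rw [cardFactors_apply_prime (by norm_num : Nat.Prime 11)]
    exact odd_one
  by_contra hcon
  have hev : ∀ m : ℕ, Odd m → (2 * k - 1) ^ 2 < m → m < (2 * k + 1) ^ 2 →
      (-1 : ℤ) ^ (cardFactors m) = 1 := by
    intro m h1 h2 h3
    by_contra h4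
    apply hcon
    refine ⟨m, h1, h2, h3, ?_⟩
    rw [← Nat.not_even_iff_odd]
    intro h5
    exact h4 h5.neg_one_pow
  have h4 : (-1 : ℤ) ^ (cardFactors 3) = 1 :=
    good3 k hk h2 (fun m => (-1 : ℤ) ^ (cardFactors m))
      (fun a b ha hb => by simp only [cardFactors_mul ha hb, pow_add])
      (fun a _ => neg_one_pow_eq_or ℤ _) hev
  rw [cardFactors_apply_prime Nat.prime_three] at h4
  norm_num at h4

end Pool.Agent.PAR
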