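import Pool.Agent.Helper19_PAR.Level

set_option autoImplicit false

/-!
# Middle range: no cut at all when `2N+1`, `N`, `N+1`, `N+2` are not squares
-/

namespace Pool.Agent.PAR

variable {N : ℤ} {g : ℤ → ℤ}

/-- no cut -/
structure NoCut (N : ℤ) : Prop where
  c1 : ∀ b : ℤ, b ^ 2 ≠ 2 * N + 1
  c2 : ∀ w : ℤ, ¬ (N ≤ w ^ 2 ∧ w ^ 2 ≤ N + 2)

theorem sqgap1 (hN : Even N) (C : NoCut N) {b : ℤ} (hb : Odd b) :
    b ^ 2 < 2 * N - 1 ∨ 2 * N + 3 < b ^ 2 := by
  by_contra hcon
  push Not at hcon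
  obtain ⟨x, hx⟩ := hN
  obtain ⟨y, hy⟩ := hb
  have e : b ^ 2 = 4 * (y ^ 2 + y) + 1 := by rw [hy]; ring
  apply C.c1 b
  generalize y ^ 2 + y = z at e
  omega

theorem sqgap2 (C : NoCut N) {b : ℤ} (hb : Odd b) :
    (b - 1) ^ 2 < 4 * N ∨ 4 * N + 8 < (b - 1) ^ 2 := by
  by_contra hcon
  push Not at hcon
  obtain ⟨y, hy⟩ := hb
  have e : (b - 1) ^ 2 = 4 * y ^ 2 := by rw [hy]; ring
  apply C.c2 y
  constructor <;> omega

theorem Hyp.freeR (H : Hyp N g) (C : NoCut N) {b : ℤ} (hb : Odd b) (hb0 : 0 < b)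
    (hN : 12 ≤ N) (h : (b - 2) ^ 2 < 6 * N + 3) : g (N + b) = g (N + b + 2) := by
  rcases sqgap1 H.ev C hb with h1 | h1
  · exact H.linkR (i := 0) le_rfl hb hb0 (by omega) (by nlinarith) (by nlinarith)
  · rcases sqgap2 C hb with h2 | h2
    · exact H.linkR (i := 1) (by omega) hb hb0 (by omega) (by nlinarith) (by nlinarith)
    · exact H.linkR (i := 2) (by omega) hb hb0 (by omega) (by nlinarith) (by nlinarith)

theorem Hyp.freeL (H : Hyp N g) (C : NoCut N) {b : ℤ} (hb : Odd b) (hb0 : 0 < b)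
    (hN : 12 ≤ N) (h : (b + 4) ^ 2 < 6 * N + 3) : g (N - b) = g (N - (b + 2)) := by
  have hb2 : Odd (b + 2) := hb.add_even even_two
  have hb4 : Odd (b + 4) := hb.add_even (by decide)
  rcases sqgap1 H.ev C hb2 with h1 | h1
  · exact H.linkL (i := 0) le_rfl hb hb0 (by omega) (by nlinarith) (by nlinarith)
  · rcases sqgap2 C hb4 with h2 | h2
    · exact H.linkL (i := 1) (by omega) hb hb0 (by omega) (by nlinarith) (by nlinarith)
    · exact H.linkL (i := 2) (by omega) hb hb0 (by omega) (by nlinarith) (by nlinarith)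

theorem Hyp.freeWindow (H : Hyp N g) (C : NoCut N) (hN : 12 ≤ N) {B : ℤ} (hB : 0 < B)
    (h : (B + 2) ^ 2 < 6 * N + 3) {e : ℤ} (he : Odd e) (h1 : e ≤ B) (h2 : -B ≤ e) :
    g (N + e) = g (N + 1) := by
  have right : ∀ j : ℕ, (1 + 2 * (j : ℤ)) ≤ B → g (N + (1 + 2 * j)) = g (N + 1) := by
    intro j
    induction j with
    | zero => intro _; simp
    | succ j ih =>
      intro hj
      push_cast at hj ⊢
      rw [← ih (by omega)]
      have := H.freeR C (b := 1 + 2 * (j : ℤ)) ⟨j, by ring⟩ (by omega) hN (by nlinarith)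
      rw [this]
      exact congrArg g (by ring)
  have left : ∀ j : ℕ, (1 + 2 * (j : ℤ)) ≤ B → g (N - (1 + 2 * j)) = g (N + 1) := by
    intro j
    induction j with
    | zero =>
      intro _
      simp only [Nat.cast_zero, mul_zero, add_zero]
      exact H.centre (by omega)
    | succ j ih =>
      intro hj
      push_cast at hj ⊢
      rw [← ih (by omega)]
      have := H.freeL C (b := 1 + 2 * (j : ℤ)) ⟨j, by ring⟩ (by omega) hN (by nlinarith)
      rw [this]
      exact congrArg g (by ring)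
  obtain ⟨y, hy⟩ := he
  rcases le_or_gt 0 y with hy0 | hy0
  · obtain ⟨j, rfl⟩ := Int.eq_ofNat_of_zero_le hy0
    have := right j (by omega)
    rw [← this]
    exact congrArg g (by rw [hy]; ring)
  · obtain ⟨j, hj⟩ := Int.eq_ofNat_of_zero_le (show 0 ≤ -y - 1 by omega)
    have := left j (by omega)
    rw [← this]
    exact congrArg g (by omega)

/-- middle range: `g 3 = 1` -/
theorem Hyp.three (H : Hyp N g) (C : NoCut N) {s : ℤ} (hs : 83 ≤ s) (h1 : s ^ 2 ≤ N)
    (h2 : N < (s + 1) ^ 2) : g 3 = 1 := by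
  set B : ℤ := (2449 * s) / 1000 - 2 with hB
  have hB1 : 1000 * B ≤ 2449 * s - 2000 := by omega
  have hB2 : 2449 * s - 3000 ≤ 1000 * B := by omega
  have hN12 : 12 ≤ N := by nlinarith
  have W : ∀ n, Odd n → N - B ≤ n → n ≤ N + B → g n = g (N + 1) := by
    intro n hn a1 a2
    have hBB : (B + 2) ^ 2 < 6 * N + 3 := by
      have := sqm (x := 1000 * (B + 2)) (y := 2449 * s) (by omega) (by omega)
      nlinarith
    have := H.freeWindow C hN12 (B := B) (by omega) hBB (e := n - N) (hn.sub_even H.ev)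
      (by omega) (by omega)
    rwa [add_sub_cancel] at this
  have hNB : 0 < N - B := by nlinarith
  have hst : ∀ p, Odd p → (54 * s) / 100 + 1 ≤ p → p ≤ (185 * s) / 100 → g p = g (p + 2) := by
    intro p hp a1 a2
    refine H.stepP hNB W hp (by omega) ?_
    have a1 : 0 ≤ 100 * p - 54 * s := by omega
    have a2 : 0 ≤ 185 * s - 100 * p := by omega
    nlinarith [mul_nonneg a1 a2]
  obtain ⟨p0, hp0, l1, l2⟩ : ∃ p0 : ℤ, Odd p0 ∧ (54 * s) / 100 + 1 ≤ p0 ∧
      p0 ≤ (54 * s) / 100 + 2 := by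
    rcases Int.even_or_odd ((54 * s) / 100 + 1) with he | ho
    · exact ⟨_, he.add_one, by omega, by omega⟩
    · exact ⟨_, ho, le_rfl, by omega⟩
  exact H.level (lo := (54 * s) / 100 + 1) (hi := (185 * s) / 100) (by omega) hst hp0 l1
    (by omega) 3 (by decide) (by norm_num) (by omega)

end Pool.Agent.PAR
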